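import Pool.Agent.R709.JB.Power

/-!
# The closed subalgebra generated by a self-adjoint element, and products
-/

set_option autoImplicit false

namespace Pool.Agent.R709.JB

open Filter Topology

universe u

variable {A : Type u} [NormedAddCommGroup A] [NormedSpace ℂ A]

namespace JBStar

variable (J : JBStar A)

theorem cont_left (y : A) : Continuous fun u => J.mul u y := (J.m.flip y).continuous

theorem cont_right (y : A) : Continuous fun u => J.mul y u := (J.m y).continuous

theorem st_zero : J.st 0 = 0 := by
  have h := J.st_smul 0 0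
  simpa using h

/-- The involution as an additive map. -/
def stHom : A →+ A where
  toFun := J.st
  map_zero' := J.st_zero
  map_add' := J.st_add

theorem cont_st : Continuous J.st :=
  AddMonoidHomClass.continuous_of_bound J.stHom 3 J.norm_st_le

/-- The closed subalgebra generated by `a`. -/
def B (a : A) : Submodule ℂ A := (Submodule.span ℂ (Set.range (J.pw a))).topologicalClosure

theorem B_closed (a : A) : IsClosed (J.B a : Set A) := Submodule.isClosed_topologicalClosure _

theorem pw_mem (a : A) (n : ℕ) : J.pw a n ∈ J.B a :=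
  Submodule.le_topologicalClosure _ (Submodule.subset_span ⟨n, rfl⟩)

theorem B_le {a : A} {P : Submodule ℂ A} (hP : IsClosed (P : Set A))
    (h : ∀ n, J.pw a n ∈ P) : J.B a ≤ P :=
  Submodule.topologicalClosure_minimal _ (Submodule.span_le.2 (Set.range_subset_iff.2 h)) hP

/-- The elements whose multiplication commutes with that of `v`. -/
def com (v : A) : Submodule ℂ A where
  carrier := {u | ∀ x, J.mul u (J.mul v x) = J.mul v (J.mul u x)}
  add_mem' {u w} hu hw x := by simp [hu x, hw x]
  zero_mem' x := by simp
  smul_mem' c u hu x := by simp [hu x]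

theorem com_closed (v : A) : IsClosed (J.com v : Set A) := by
  have h : (J.com v : Set A) = ⋂ x, {u | J.mul u (J.mul v x) = J.mul v (J.mul u x)} := by
    ext u
    simp [com]
  rw [h]
  exact isClosed_iInter fun x => isClosed_eq (J.cont_left _)
    ((J.cont_right v).comp (J.cont_left x))

theorem B_comm {a u v : A} (hu : u ∈ J.B a) (hv : v ∈ J.B a) (x : A) :
    J.mul u (J.mul v x) = J.mul v (J.mul u x) := by
  have h1 : ∀ n, J.B a ≤ J.com (J.pw a n) := fun n => J.B_le (J.com_closed _) fun m x => by
    have h := congrArg (fun T : Module.End ℂ A => T x) (J.comm_pw a m n).eq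
    exact h
  have h2 : J.B a ≤ J.com u := J.B_le (J.com_closed _) fun n x => (h1 n hu x).symm
  exact (h2 hv x).symm

theorem B_mul {a u v : A} (hu : u ∈ J.B a) (hv : v ∈ J.B a) : J.mul u v ∈ J.B a := by
  have h1 : ∀ n, ∀ w ∈ J.B a, J.mul w (J.pw a n) ∈ J.B a := by
    intro n
    have h : J.B a ≤ (J.B a).comap (J.mul (J.pw a n)) := by
      refine J.B_le ((J.B_closed a).preimage (J.cont_right _)) fun m => ?_
      change J.mul (J.pw a n) (J.pw a m) ∈ J.B a
      rw [J.pw_mul]
      exact J.pw_mem _ _
    intro w hw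
    rw [J.mul_comm]
    exact h hw
  have h2 : J.B a ≤ (J.B a).comap (J.mul u) :=
    J.B_le ((J.B_closed a).preimage (J.cont_right _)) fun n => h1 n u hu
  exact h2 hv

theorem B_st {a : A} (ha : J.st a = a) {u : A} (hu : u ∈ J.B a) : J.st u ∈ J.B a := by
  let P : Submodule ℂ A :=
    { carrier := {u | J.st u ∈ J.B a}
      add_mem' := fun {u w} hu hw => by
        change J.st (u + w) ∈ J.B a
        rw [J.st_add]
        exact add_mem hu hw
      zero_mem' := by
        change J.st 0 ∈ J.B a
        rw [J.st_zero]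
        exact zero_mem _
      smul_mem' := fun c u hu => by
        change J.st (c • u) ∈ J.B a
        rw [J.st_smul]
        exact (J.B a).smul_mem _ hu }
  have h : J.B a ≤ P := J.B_le ((J.B_closed a).preimage J.cont_st) fun n => by
    change J.st (J.pw a n) ∈ J.B a
    rw [J.st_pw ha]
    exact J.pw_mem _ _
  exact h hu

theorem B_assoc {a u v w : A} (hu : u ∈ J.B a) (hw : w ∈ J.B a) :
    J.mul (J.mul u v) w = J.mul u (J.mul v w) := by
  rw [J.mul_comm (J.mul u v) w, J.B_comm hw hu, J.mul_comm w v]

variable [CompleteSpace A]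

/-- The closed subalgebra generated by a self-adjoint element is a commutative C*-algebra. -/
noncomputable abbrev cstar (a : A) (ha : J.st a = a) : NonUnitalCommCStarAlgebra (J.B a) :=
  letI i1 : NonUnitalNormedCommRing (J.B a) :=
    { (inferInstance : NormedAddCommGroup (J.B a)) with
      mul := fun u v => ⟨J.mul (u : A) (v : A), J.B_mul u.2 v.2⟩
      left_distrib := fun u v w => Subtype.ext (map_add (J.mul (u : A)) (v : A) (w : A))
      right_distrib := fun u v w => Subtype.ext (by
        change J.mul (u + v : A) w = J.mul u w + J.mul v w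
        rw [map_add, LinearMap.add_apply])
      zero_mul := fun u => Subtype.ext (by
        change J.mul (0 : A) u = 0
        rw [map_zero, LinearMap.zero_apply])
      mul_zero := fun u => Subtype.ext (map_zero (J.mul (u : A)))
      mul_assoc := fun u v w => Subtype.ext (J.B_assoc u.2 w.2)
      mul_comm := fun u v => Subtype.ext (J.mul_comm (u : A) (v : A))
      norm_mul_le := fun u v => J.norm_mul_le (u : A) (v : A) }
  letI i2 : StarRing (J.B a) :=
    { star := fun u => ⟨J.st u, J.B_st ha u.2⟩
      star_involutive := fun u => Subtype.ext (J.st_st u)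
      star_mul := fun u v => Subtype.ext (by
        change J.st (J.mul u v) = J.mul (J.st v) (J.st u)
        rw [J.st_mul, J.mul_comm])
      star_add := fun u v => Subtype.ext (J.st_add u v) }
  haveI i3 : CompleteSpace (J.B a) := (J.B_closed a).completeSpace_coe
  haveI i4 : CStarRing (J.B a) :=
    { norm_mul_self_le := fun u => by
        change ‖(u : A)‖ * ‖(u : A)‖ ≤ ‖J.mul (J.st u) (u : A)‖
        by_cases hu : (u : A) = 0
        · rw [hu, norm_zero, mul_zero]
          exact norm_nonneg _
        have hu' : 0 < ‖(u : A)‖ := norm_pos_iff.2 hu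
        have h1 := J.norm_U u
        have hs := J.B_st ha u.2
        have e1 : J.mul (J.mul (u : A) (J.st u)) u = J.mul (J.mul (J.st u) u) u := by
          rw [J.mul_comm (u : A) (J.st u)]
        have e2 : J.mul (J.mul (u : A) u) (J.st u) = J.mul (J.mul (J.st u) u) u := by
          rw [J.mul_comm (J.mul (u : A) u), ← J.B_assoc hs u.2]
        have e3 : (2 : ℂ) • J.mul (J.mul (u : A) (J.st u)) u - J.mul (J.mul (u : A) u) (J.st u) =
            J.mul (J.mul (J.st u) u) u := by
          rw [e1, e2]
          module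
        rw [e3] at h1
        have h2 := J.norm_mul_le (J.mul (J.st u) u) u
        rw [h1] at h2
        have h3 : ‖(u : A)‖ ^ 3 = ‖(u : A)‖ * ‖(u : A)‖ * ‖(u : A)‖ := by ring
        rw [h3] at h2
        exact le_of_mul_le_mul_right h2 hu' }
  letI i5 : NormedSpace ℂ (J.B a) :=
    { (inferInstance : Module ℂ (J.B a)) with
      norm_smul_le := fun c u => norm_smul_le c (u : A) }
  { i1, i2, i3, i4, i5 with
    smul_assoc := fun c u v => Subtype.ext (by
      change J.mul (c • (u : A)) v = c • J.mul u v
      rw [map_smul, LinearMap.smul_apply])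
    smul_comm := fun c u v => Subtype.ext (by
      change c • J.mul u v = J.mul u (c • (v : A))
      rw [map_smul])
    star_smul := fun c u => Subtype.ext (J.st_smul c u) }

theorem sqrt_id (t : ℝ) : (√(max t 0) - √(max (-t) 0)) * √|t| = t := by
  rcases le_total 0 t with h | h
  · rw [max_eq_left h, max_eq_right (by linarith), Real.sqrt_zero, sub_zero, abs_of_nonneg h,
      Real.mul_self_sqrt h]
  · rw [max_eq_right h, max_eq_left (by linarith), Real.sqrt_zero, zero_sub, abs_of_nonpos h,
      neg_mul, Real.mul_self_sqrt (by linarith), neg_neg]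

/-- A self-adjoint element is a product. -/
theorem exists_mul_eq (a : A) (ha : J.st a = a) : ∃ b c : A, J.mul b c = a := by
  let _ := J.cstar a ha
  let x : J.B a := ⟨a, J.pw_mem a 0⟩
  have hx : IsSelfAdjoint x := Subtype.ext ha
  have h1 : cfcₙ (fun t : ℝ => (√(max t 0) - √(max (-t) 0)) * √|t|) x =
      cfcₙ (fun t : ℝ => √(max t 0) - √(max (-t) 0)) x * cfcₙ (fun t : ℝ => √|t|) x :=
    cfcₙ_mul _ _ x (by fun_prop) (by simp) (by fun_prop) (by simp)
  simp only [sqrt_id] at h1
  rw [cfcₙ_id' ℝ x] at h1
  have h2 := congrArg (fun y : J.B a => (y : A)) h1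
  exact ⟨_, _, h2.symm⟩

/-- Every element is a sum of two products. -/
theorem exists_two (a : A) : ∃ b₁ c₁ b₂ c₂ : A, a = J.mul b₁ c₁ + J.mul b₂ c₂ := by
  have h1 : J.st ((2 : ℂ)⁻¹ • (a + J.st a)) = (2 : ℂ)⁻¹ • (a + J.st a) := by
    have e : (starRingEnd ℂ) ((2 : ℂ)⁻¹) = (2 : ℂ)⁻¹ := by rw [map_inv₀, Complex.conj_ofNat]
    rw [J.st_smul, J.st_add, J.st_st, add_comm, e]
  have h2 : J.st ((-(Complex.I / 2)) • (a - J.st a)) = (-(Complex.I / 2)) • (a - J.st a) := by
    have h3 : J.st (a - J.st a) = -(a - J.st a) := by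
      have h4 := J.stHom.map_sub a (J.st a)
      change J.st (a - J.st a) = J.st a - J.st (J.st a) at h4
      rw [h4, J.st_st]
      abel
    have e : (starRingEnd ℂ) (-(Complex.I / 2)) = Complex.I / 2 := by
      rw [map_neg, map_div₀, Complex.conj_I, Complex.conj_ofNat]
      ring
    rw [J.st_smul, h3, e]
    module
  obtain ⟨b₁, c₁, h3⟩ := J.exists_mul_eq _ h1
  obtain ⟨b₂, c₂, h4⟩ := J.exists_mul_eq _ h2
  refine ⟨b₁, c₁, Complex.I • b₂, c₂, ?_⟩
  rw [h3, map_smul, LinearMap.smul_apply, h4, smul_smul]
  have h5 : Complex.I * -(Complex.I / 2) = (2 : ℂ)⁻¹ := by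
    rw [mul_neg, mul_div_assoc', Complex.I_mul_I]
    norm_num
  rw [h5]
  module

end JBStar

end Pool.Agent.R709.JB
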