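import Mathlib

/-!
# JB*-algebras, their multipliers and the J-strict topology
-/

set_option autoImplicit false

namespace Pool.Agent.R709.JB

open Filter Topology

universe u

variable (A : Type u) [NormedAddCommGroup A] [NormedSpace ℂ A] [CompleteSpace A]

/-- The structure of a JB*-algebra on a complex Banach space: a commutative bilinear product
(`mul a b` is `a ∘ b`) that satisfies the Jordan identity and `‖a ∘ b‖ ≤ ‖a‖ ‖b‖`, and a conjugate
linear involution `st` which is multiplicative, such that `‖U_a(a*)‖ = ‖a‖ ^ 3`, where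
`U_a(x) = 2 (a ∘ x) ∘ a - (a ∘ a) ∘ x`. -/
structure JBStar where
  /-- the Jordan product -/
  mul : A →ₗ[ℂ] A →ₗ[ℂ] A
  mul_comm : ∀ a b, mul a b = mul b a
  jordan : ∀ a b, mul (mul a b) (mul a a) = mul a (mul b (mul a a))
  norm_mul_le : ∀ a b, ‖mul a b‖ ≤ ‖a‖ * ‖b‖
  /-- the involution -/
  st : A → A
  st_add : ∀ a b, st (a + b) = st a + st b
  st_smul : ∀ (c : ℂ) (a : A), st (c • a) = (starRingEnd ℂ) c • st a
  st_st : ∀ a, st (st a) = a
  st_mul : ∀ a b, st (mul a b) = mul (st a) (st b)
  norm_U : ∀ a, ‖(2 : ℂ) • mul (mul a (st a)) a - mul (mul a a) (st a)‖ = ‖a‖ ^ 3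

variable {A}

namespace JBStar

variable (J : JBStar A)

/-- The product as a continuous bilinear map. -/
noncomputable def m : A →L[ℂ] A →L[ℂ] A :=
  LinearMap.mkContinuous₂ J.mul 1 fun a b => by simpa using J.norm_mul_le a b

/-- For a functional `φ` on `A` and `G` in the bidual, the functional `a ↦ G (b ↦ φ (a ∘ b))`
on `A`. -/
noncomputable def inner (G : StrongDual ℂ (StrongDual ℂ A)) (φ : StrongDual ℂ A) :
    StrongDual ℂ A :=
  G.comp ((ContinuousLinearMap.compL ℂ A A ℂ φ).comp J.m)

/-- The Arens product on the bidual of `A`: `(F ∘ G) (φ) = F (a ↦ G (b ↦ φ (a ∘ b)))`. For a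
JB*-algebra this is the product of the JBW*-algebra `A**`, the only separately weak*-continuous
extension of the product of `A`. -/
noncomputable def bmul (F G : StrongDual ℂ (StrongDual ℂ A)) : StrongDual ℂ (StrongDual ℂ A) :=
  LinearMap.mkContinuous
    { toFun := fun φ => F (J.inner G φ)
      map_add' := fun φ ψ => by
        rw [← map_add]
        congr 1
        ext a
        simp [inner]
      map_smul' := fun c φ => by
        rw [RingHom.id_apply, ← map_smul]
        congr 1
        ext a
        simp [inner] } (‖F‖ * (‖G‖ * ‖J.m‖)) fun φ => by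
    refine (F.le_opNorm _).trans ?_
    rw [mul_assoc]
    refine mul_le_mul_of_nonneg_left ?_ (norm_nonneg _)
    refine (ContinuousLinearMap.opNorm_comp_le _ _).trans ?_
    rw [mul_assoc]
    refine mul_le_mul_of_nonneg_left ?_ (norm_nonneg _)
    refine (ContinuousLinearMap.opNorm_comp_le _ _).trans ?_
    rw [_root_.mul_comm]
    refine mul_le_mul_of_nonneg_left ?_ (norm_nonneg _)
    refine ContinuousLinearMap.opNorm_le_bound _ (norm_nonneg _) fun T => ?_
    exact ContinuousLinearMap.opNorm_comp_le _ _

/-- The canonical embedding of `A` in its bidual. -/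
noncomputable abbrev ι : A →L[ℂ] StrongDual ℂ (StrongDual ℂ A) :=
  NormedSpace.inclusionInDoubleDual ℂ A

/-- The multiplier algebra `M(A)`: the elements `x` of the bidual with `A ∘ x ⊆ A`. -/
def Multiplier : Set (StrongDual ℂ (StrongDual ℂ A)) :=
  {x | ∀ a : A, ∃ c : A, J.bmul (ι a) x = ι c}

/-- Convergence in the J-strict topology, which is generated by the seminorms `‖a ∘ x‖` for
`a ∈ A`, along a filter (for nets: the filter `atTop` of the directed set). -/
def JStrict {Λ : Type*} (l : Filter Λ) (x : Λ → StrongDual ℂ (StrongDual ℂ A))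
    (x₀ : StrongDual ℂ (StrongDual ℂ A)) : Prop :=
  ∀ a : A, Tendsto (fun i => ‖J.bmul (ι a) (x i - x₀)‖) l (𝓝 0)

end JBStar

end Pool.Agent.R709.JB
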