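import Pool.Agent.R709.JB.CStar

/-!
# The product of the multiplier algebra is jointly J-strict continuous on bounded sets
-/

set_option autoImplicit false

namespace Pool.Agent.R709.JB

open Filter Topology

universe u

variable {A : Type u} [NormedAddCommGroup A] [NormedSpace ℂ A]

namespace JBStar

variable (J : JBStar A)

theorem m_apply (a b : A) : J.m a b = J.mul a b := rfl

theorem bmul_ι (a : A) (x : StrongDual ℂ (StrongDual ℂ A)) (φ : StrongDual ℂ A) :
    J.bmul (ι a) x φ = x (φ.comp (J.m a)) := rfl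

theorem bmul_apply (x y : StrongDual ℂ (StrongDual ℂ A)) (φ : StrongDual ℂ A) :
    J.bmul x y φ = x (J.inner y φ) := rfl

theorem inner_apply (y : StrongDual ℂ (StrongDual ℂ A)) (φ : StrongDual ℂ A) (d : A) :
    J.inner y φ d = y (φ.comp (J.m d)) := rfl

theorem norm_ι (a : A) : ‖(ι a : StrongDual ℂ (StrongDual ℂ A))‖ = ‖a‖ :=
  (NormedSpace.inclusionInDoubleDualLi ℂ).norm_map a

theorem norm_ι_sub (a b : A) :
    ‖(ι a - ι b : StrongDual ℂ (StrongDual ℂ A))‖ = ‖a - b‖ := by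
  have h : (ι a - ι b : StrongDual ℂ (StrongDual ℂ A)) = ι (a - b) := by
    ext φ
    change φ a - φ b = φ (a - b)
    rw [map_sub]
  rw [h, norm_ι]

theorem ι_inj {a b : A} (h : ∀ φ : StrongDual ℂ A, φ a = φ b) : a = b :=
  (SeparatingDual.eq_iff_forall_dual_eq (R := ℂ)).2 h

open Classical in
/-- The action of a multiplier. -/
noncomputable def act (x : StrongDual ℂ (StrongDual ℂ A)) (a : A) : A :=
  if h : ∃ c : A, J.bmul (ι a) x = ι c then h.choose else 0

theorem act_spec {x : StrongDual ℂ (StrongDual ℂ A)} (hx : x ∈ J.Multiplier) (a : A) :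
    J.bmul (ι a) x = ι (J.act x a) := by
  have h : ∃ c : A, J.bmul (ι a) x = ι c := hx a
  rw [act, dif_pos h]
  exact h.choose_spec

theorem apply_act {x : StrongDual ℂ (StrongDual ℂ A)} (hx : x ∈ J.Multiplier) (a : A)
    (φ : StrongDual ℂ A) : x (φ.comp (J.m a)) = φ (J.act x a) := by
  rw [← bmul_ι, J.act_spec hx]
  rfl

theorem act_add {x : StrongDual ℂ (StrongDual ℂ A)} (hx : x ∈ J.Multiplier) (a b : A) :
    J.act x (a + b) = J.act x a + J.act x b := by
  refine ι_inj fun φ => ?_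
  rw [map_add, ← J.apply_act hx, ← J.apply_act hx, ← J.apply_act hx, ← map_add]
  congr 1
  ext d
  simp

theorem act_smul {x : StrongDual ℂ (StrongDual ℂ A)} (hx : x ∈ J.Multiplier) (c : ℂ) (a : A) :
    J.act x (c • a) = c • J.act x a := by
  refine ι_inj fun φ => ?_
  rw [map_smul, ← J.apply_act hx, ← J.apply_act hx, ← map_smul]
  congr 1
  ext d
  simp

theorem norm_act_le {x : StrongDual ℂ (StrongDual ℂ A)} (hx : x ∈ J.Multiplier) (a : A) :
    ‖J.act x a‖ ≤ ‖x‖ * ‖a‖ := by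
  refine NormedSpace.norm_le_dual_bound ℂ _ (by positivity) fun φ => ?_
  rw [← J.apply_act hx]
  refine (x.le_opNorm _).trans ?_
  rw [mul_assoc]
  refine mul_le_mul_of_nonneg_left ?_ (norm_nonneg _)
  refine (ContinuousLinearMap.opNorm_comp_le _ _).trans ?_
  rw [_root_.mul_comm]
  refine mul_le_mul_of_nonneg_right ?_ (norm_nonneg _)
  exact ContinuousLinearMap.opNorm_le_bound _ (norm_nonneg _) fun b => J.norm_mul_le a b

/-- The action as a continuous linear map. -/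
noncomputable def actL {x : StrongDual ℂ (StrongDual ℂ A)} (hx : x ∈ J.Multiplier) : A →L[ℂ] A :=
  LinearMap.mkContinuous
    { toFun := J.act x
      map_add' := J.act_add hx
      map_smul' := J.act_smul hx } ‖x‖ (J.norm_act_le hx)

/-- The formula for the product of two multipliers. -/
noncomputable def E (x y : StrongDual ℂ (StrongDual ℂ A)) (b c : A) : A :=
  J.act y (J.act x (J.mul b c)) + J.mul b (J.act x (J.act y c)) + J.mul c (J.act x (J.act y b)) -
    J.mul (J.act y c) (J.act x b) - J.mul (J.act y b) (J.act x c)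

theorem inner_eq {y : StrongDual ℂ (StrongDual ℂ A)} (hy : y ∈ J.Multiplier) (b c : A)
    (φ : StrongDual ℂ A) : J.inner y (φ.comp (J.m (J.mul b c))) =
      (φ.comp (J.actL hy)).comp (J.m (J.mul b c)) + (φ.comp (J.m b)).comp (J.m (J.act y c)) +
        (φ.comp (J.m c)).comp (J.m (J.act y b)) - (φ.comp (J.m (J.act y c))).comp (J.m b) -
          (φ.comp (J.m (J.act y b))).comp (J.m c) := by
  ext d
  have h1 : (φ.comp (J.m (J.mul b c))).comp (J.m d) =
      φ.comp (J.m (J.mul (J.mul b c) d)) + ((φ.comp (J.m b)).comp (J.m d)).comp (J.m c) +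
        ((φ.comp (J.m c)).comp (J.m d)).comp (J.m b) - (φ.comp (J.m (J.mul b d))).comp (J.m c) -
          (φ.comp (J.m (J.mul c d))).comp (J.m b) := by
    ext e
    have h := J.lin2 b d c e
    simp only [_root_.sub_apply, _root_.add_apply,
      ContinuousLinearMap.comp_apply, m_apply]
    rw [← map_add, ← map_add, ← map_sub, ← map_sub]
    congr 1
    have e1 : J.mul (J.mul c d) (J.mul b e) = J.mul (J.mul c d) (J.mul b e) := rfl
    have e2 : J.mul (J.mul b d) (J.mul e c) = J.mul (J.mul b d) (J.mul c e) := by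
      rw [J.mul_comm e c]
    have e3 : J.mul (J.mul e d) (J.mul b c) = J.mul (J.mul b c) (J.mul d e) := by
      rw [J.mul_comm (J.mul e d), J.mul_comm e d]
    have e4 : J.mul b (J.mul d (J.mul e c)) = J.mul b (J.mul d (J.mul c e)) := by
      rw [J.mul_comm e c]
    have e5 : J.mul e (J.mul d (J.mul b c)) = J.mul (J.mul (J.mul b c) d) e := by
      rw [J.mul_comm e, J.mul_comm d]
    rw [e2, e3, e4, e5] at h
    linear_combination (norm := module) h
  rw [inner_apply, h1]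
  simp only [map_add, map_sub, _root_.sub_apply, _root_.add_apply]
  rw [J.apply_act hy, J.apply_act hy, J.apply_act hy, J.apply_act hy, J.apply_act hy]
  simp only [ContinuousLinearMap.comp_apply, m_apply]
  rw [J.mul_comm d (J.act y c), J.mul_comm d (J.act y b), J.mul_comm (J.mul b d),
    J.mul_comm (J.mul c d)]
  rfl

theorem bmul_bmul {x y : StrongDual ℂ (StrongDual ℂ A)} (hx : x ∈ J.Multiplier)
    (hy : y ∈ J.Multiplier) (b c : A) :
    J.bmul (ι (J.mul b c)) (J.bmul x y) = ι (J.E x y b c) := by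
  ext φ
  rw [bmul_ι, bmul_apply, J.inner_eq hy]
  simp only [map_add, map_sub]
  rw [J.apply_act hx, J.apply_act hx, J.apply_act hx, J.apply_act hx, J.apply_act hx]
  change _ = φ (J.E x y b c)
  rw [E, map_sub, map_sub, map_add, map_add]
  rfl

theorem bmul_add (a b : A) (z : StrongDual ℂ (StrongDual ℂ A)) :
    J.bmul (ι (a + b)) z = J.bmul (ι a) z + J.bmul (ι b) z := by
  ext φ
  rw [_root_.add_apply, bmul_ι, bmul_ι, bmul_ι, ← map_add]
  congr 1
  ext d
  simp

theorem bmul_sub (a : A) (z w : StrongDual ℂ (StrongDual ℂ A)) :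
    J.bmul (ι a) (z - w) = J.bmul (ι a) z - J.bmul (ι a) w := by
  ext φ
  rfl

variable [CompleteSpace A]

/-- The product of two multipliers is a multiplier. -/
theorem mul_mem {x y : StrongDual ℂ (StrongDual ℂ A)} (hx : x ∈ J.Multiplier)
    (hy : y ∈ J.Multiplier) : J.bmul x y ∈ J.Multiplier := by
  intro a
  obtain ⟨b₁, c₁, b₂, c₂, rfl⟩ := J.exists_two a
  refine ⟨J.E x y b₁ c₁ + J.E x y b₂ c₂, ?_⟩
  rw [bmul_add, J.bmul_bmul hx hy, J.bmul_bmul hx hy, map_add]

omit [CompleteSpace A] in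
theorem tendsto_act {Λ : Type*} {l : Filter Λ} {x : Λ → StrongDual ℂ (StrongDual ℂ A)}
    {x₀ : StrongDual ℂ (StrongDual ℂ A)} (hx : ∀ i, x i ∈ J.Multiplier) (hx₀ : x₀ ∈ J.Multiplier)
    (h : J.JStrict l x x₀) (a : A) : Tendsto (fun i => J.act (x i) a) l (𝓝 (J.act x₀ a)) := by
  rw [tendsto_iff_norm_sub_tendsto_zero]
  refine (h a).congr fun i => ?_
  rw [bmul_sub, J.act_spec (hx i), J.act_spec hx₀, norm_ι_sub]

omit [CompleteSpace A] in
theorem tendsto_act_act {Λ : Type*} {l : Filter Λ} {x : Λ → StrongDual ℂ (StrongDual ℂ A)}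
    {x₀ : StrongDual ℂ (StrongDual ℂ A)} (hx : ∀ i, x i ∈ J.Multiplier)
    {C : ℝ} (hC : ∀ i, ‖x i‖ ≤ C)
    (h : ∀ a, Tendsto (fun i => J.act (x i) a) l (𝓝 (J.act x₀ a))) {v : Λ → A} {v₀ : A}
    (hv : Tendsto v l (𝓝 v₀)) : Tendsto (fun i => J.act (x i) (v i)) l (𝓝 (J.act x₀ v₀)) := by
  have h1 : Tendsto (fun i => J.act (x i) (v i - v₀)) l (𝓝 0) := by
    rw [tendsto_zero_iff_norm_tendsto_zero]
    have h2 : Tendsto (fun i => C * ‖v i - v₀‖) l (𝓝 0) := by
      have h3 := (tendsto_iff_norm_sub_tendsto_zero.1 hv).const_mul C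
      rwa [mul_zero] at h3
    refine squeeze_zero (fun i => norm_nonneg _) (fun i => ?_) h2
    exact (J.norm_act_le (hx i) _).trans (mul_le_mul_of_nonneg_right (hC i) (norm_nonneg _))
  have h2 := h1.add (h v₀)
  rw [zero_add] at h2
  refine h2.congr fun i => ?_
  rw [← J.act_add (hx i), sub_add_cancel]

omit [CompleteSpace A] in
theorem tendsto_mul {Λ : Type*} {l : Filter Λ} {v w : Λ → A} {v₀ w₀ : A}
    (hv : Tendsto v l (𝓝 v₀)) (hw : Tendsto w l (𝓝 w₀)) :
    Tendsto (fun i => J.mul (v i) (w i)) l (𝓝 (J.mul v₀ w₀)) :=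
  (J.m.continuous₂.tendsto (v₀, w₀)).comp (hv.prodMk_nhds hw)

/-- The product of the multiplier algebra is jointly J-strict continuous on bounded sets. -/
theorem joint {Λ Μ : Type*} (l : Filter Λ) (k : Filter Μ)
    (x : Λ → StrongDual ℂ (StrongDual ℂ A)) (y : Μ → StrongDual ℂ (StrongDual ℂ A))
    (x₀ y₀ : StrongDual ℂ (StrongDual ℂ A)) (hx : ∀ i, x i ∈ J.Multiplier)
    (hy : ∀ j, y j ∈ J.Multiplier) (hx₀ : x₀ ∈ J.Multiplier) (hy₀ : y₀ ∈ J.Multiplier)
    (bx : ∃ C, ∀ i, ‖x i‖ ≤ C) (by' : ∃ C, ∀ j, ‖y j‖ ≤ C)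
    (hlx : J.JStrict l x x₀) (hky : J.JStrict k y y₀) :
    J.JStrict (l ×ˢ k) (fun p : Λ × Μ => J.bmul (x p.1) (y p.2)) (J.bmul x₀ y₀) := by
  obtain ⟨C, hC⟩ := bx
  obtain ⟨D, hD⟩ := by'
  have hX : ∀ a, Tendsto (fun p : Λ × Μ => J.act (x p.1) a) (l ×ˢ k) (𝓝 (J.act x₀ a)) :=
    fun a => (J.tendsto_act hx hx₀ hlx a).comp tendsto_fst
  have hY : ∀ a, Tendsto (fun p : Λ × Μ => J.act (y p.2) a) (l ×ˢ k) (𝓝 (J.act y₀ a)) :=
    fun a => (J.tendsto_act hy hy₀ hky a).comp tendsto_snd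
  have hXX : ∀ {v : Λ × Μ → A} {v₀ : A}, Tendsto v (l ×ˢ k) (𝓝 v₀) →
      Tendsto (fun p : Λ × Μ => J.act (x p.1) (v p)) (l ×ˢ k) (𝓝 (J.act x₀ v₀)) :=
    fun hv => J.tendsto_act_act (x := fun p : Λ × Μ => x p.1) (fun p => hx p.1)
      (fun p => hC p.1) hX hv
  have hYY : ∀ {v : Λ × Μ → A} {v₀ : A}, Tendsto v (l ×ˢ k) (𝓝 v₀) →
      Tendsto (fun p : Λ × Μ => J.act (y p.2) (v p)) (l ×ˢ k) (𝓝 (J.act y₀ v₀)) :=
    fun hv => J.tendsto_act_act (x := fun p : Λ × Μ => y p.2) (fun p => hy p.2)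
      (fun p => hD p.2) hY hv
  have hE : ∀ b c, Tendsto (fun p : Λ × Μ => J.E (x p.1) (y p.2) b c) (l ×ˢ k)
      (𝓝 (J.E x₀ y₀ b c)) := by
    intro b c
    exact ((((hYY (hX _)).add (J.tendsto_mul tendsto_const_nhds (hXX (hY c)))).add
      (J.tendsto_mul tendsto_const_nhds (hXX (hY b)))).sub (J.tendsto_mul (hY c) (hX b))).sub
        (J.tendsto_mul (hY b) (hX c))
  intro a
  obtain ⟨b₁, c₁, b₂, c₂, rfl⟩ := J.exists_two a
  have h1 := tendsto_iff_norm_sub_tendsto_zero.1 ((hE b₁ c₁).add (hE b₂ c₂))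
  refine h1.congr fun p => ?_
  rw [bmul_sub, bmul_add, bmul_add, J.bmul_bmul (hx _) (hy _), J.bmul_bmul (hx _) (hy _),
    J.bmul_bmul hx₀ hy₀, J.bmul_bmul hx₀ hy₀, ← map_add, ← map_add, norm_ι_sub]

end JBStar

end Pool.Agent.R709.JB
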