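import Pool.Agent.R709.JB.Defs

/-!
# Power associativity and products
-/

set_option autoImplicit false

namespace Pool.Agent.R709.JB

open Filter Topology

universe u

variable {A : Type u} [NormedAddCommGroup A] [NormedSpace ℂ A]

namespace JBStar

variable (J : JBStar A)

/-- First linearization of the Jordan identity. -/
theorem lin1 (a b c : A) : J.mul (J.mul c b) (J.mul a a) + (2 : ℂ) • J.mul (J.mul a b) (J.mul a c) =
    J.mul c (J.mul b (J.mul a a)) + (2 : ℂ) • J.mul a (J.mul b (J.mul a c)) := by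
  have h1 := J.jordan (a + c) b
  have h2 := J.jordan (a - c) b
  have h3 := J.jordan c b
  have e1 := J.mul_comm c a
  simp only [map_add, LinearMap.add_apply, map_sub, LinearMap.sub_apply, e1] at h1 h2
  have h4 : (2 : ℂ) • (J.mul (J.mul c b) (J.mul a a) + (2 : ℂ) • J.mul (J.mul a b) (J.mul a c)) =
      (2 : ℂ) • (J.mul c (J.mul b (J.mul a a)) + (2 : ℂ) • J.mul a (J.mul b (J.mul a c))) := by
    linear_combination (norm := module) h1 - h2 - (2 : ℂ) • h3
  exact smul_right_injective A (two_ne_zero (α := ℂ)) h4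

/-- Full linearization of the Jordan identity. -/
theorem lin2 (a b c d : A) :
    J.mul (J.mul c b) (J.mul a d) + J.mul (J.mul a b) (J.mul d c) + J.mul (J.mul d b) (J.mul a c) =
    J.mul c (J.mul b (J.mul a d)) + J.mul a (J.mul b (J.mul d c)) +
      J.mul d (J.mul b (J.mul a c)) := by
  have h1 := J.lin1 (a + d) b c
  have h2 := J.lin1 a b c
  have h3 := J.lin1 d b c
  have e1 := J.mul_comm d a
  simp only [map_add, LinearMap.add_apply, e1] at h1
  have h4 : (2 : ℂ) • (J.mul (J.mul c b) (J.mul a d) + J.mul (J.mul a b) (J.mul d c) +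
      J.mul (J.mul d b) (J.mul a c)) = (2 : ℂ) • (J.mul c (J.mul b (J.mul a d)) +
      J.mul a (J.mul b (J.mul d c)) + J.mul d (J.mul b (J.mul a c))) := by
    linear_combination (norm := module) h1 - h2 - h3
  exact smul_right_injective A (two_ne_zero (α := ℂ)) h4

/-- The operator identity. -/
theorem op_eq (c y z : A) : J.mul (J.mul (J.mul c y) z) =
    J.mul (J.mul y z) * J.mul c + J.mul (J.mul c y) * J.mul z + J.mul (J.mul c z) * J.mul y -
      J.mul y * J.mul z * J.mul c - J.mul c * J.mul z * J.mul y := by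
  ext b
  have h := J.lin2 y z c b
  simp only [LinearMap.sub_apply, LinearMap.add_apply, Module.End.mul_apply]
  have e1 : J.mul b z = J.mul z b := J.mul_comm b z
  have e2 : J.mul b (J.mul z (J.mul y c)) = J.mul (J.mul (J.mul c y) z) b := by
    rw [J.mul_comm b, J.mul_comm z, J.mul_comm y c]
  have e3 : J.mul y b = J.mul b y := J.mul_comm y b
  have e4 : J.mul (J.mul c z) (J.mul y b) = J.mul (J.mul c z) (J.mul y b) := rfl
  have e5 : J.mul (J.mul b z) (J.mul y c) = J.mul (J.mul c y) (J.mul z b) := by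
    rw [J.mul_comm (J.mul b z), J.mul_comm y c, e1]
  have e6 : J.mul (J.mul y z) (J.mul b c) = J.mul (J.mul y z) (J.mul c b) := by
    rw [J.mul_comm b c]
  have e7 : J.mul c (J.mul z (J.mul y b)) = J.mul c (J.mul z (J.mul y b)) := rfl
  have e8 : J.mul y (J.mul z (J.mul b c)) = J.mul y (J.mul z (J.mul c b)) := by
    rw [J.mul_comm b c]
  rw [e2, e5, e6, e8] at h
  linear_combination (norm := module) -h

/-- The powers: `pw a n` is the power `a ^ (n + 1)`. -/
def pw (a : A) : ℕ → A
  | 0 => a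
  | n + 1 => J.mul a (pw a n)

theorem pw_rec (a : A) (n : ℕ) : J.mul (J.pw a (n + 2)) =
    J.mul (J.pw a 1) * J.mul (J.pw a n) + J.mul (J.pw a (n + 1)) * J.mul a +
      J.mul (J.pw a (n + 1)) * J.mul a - J.mul a * J.mul a * J.mul (J.pw a n) -
        J.mul (J.pw a n) * J.mul a * J.mul a := by
  have h := J.op_eq (J.pw a n) a a
  have e1 : J.mul (J.pw a n) a = J.pw a (n + 1) := J.mul_comm _ _
  have e2 : J.mul (J.pw a (n + 1)) a = J.pw a (n + 2) := J.mul_comm _ _
  rw [e1, e2] at h
  exact h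

theorem comm_sq (a : A) : Commute (J.mul a) (J.mul (J.pw a 1)) := by
  ext b
  simp only [Module.End.mul_apply]
  have h := J.jordan a b
  change J.mul a (J.mul (J.mul a a) b) = J.mul (J.mul a a) (J.mul a b)
  rw [J.mul_comm (J.mul a a) b, J.mul_comm (J.mul a a) (J.mul a b)]
  exact h.symm

theorem comm_pw_aux {a : A} {T : Module.End ℂ A} (h0 : Commute T (J.mul a))
    (h1 : Commute T (J.mul (J.pw a 1))) (n : ℕ) :
    Commute T (J.mul (J.pw a n)) ∧ Commute T (J.mul (J.pw a (n + 1))) := by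
  induction n with
  | zero => exact ⟨h0, h1⟩
  | succ n ih =>
    obtain ⟨h2, h3⟩ := ih
    refine ⟨h3, ?_⟩
    rw [pw_rec]
    exact ((((h1.mul_right h2).add_right (h3.mul_right h0)).add_right (h3.mul_right h0)).sub_right
      ((h0.mul_right h0).mul_right h2)).sub_right ((h2.mul_right h0).mul_right h0)

theorem comm_pw (a : A) (m n : ℕ) : Commute (J.mul (J.pw a m)) (J.mul (J.pw a n)) := by
  have h1 : ∀ n, Commute (J.mul a) (J.mul (J.pw a n)) := fun n =>
    (J.comm_pw_aux (T := J.mul a) (Commute.refl _) (J.comm_sq a) n).1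
  have h2 : ∀ n, Commute (J.mul (J.pw a 1)) (J.mul (J.pw a n)) := fun n =>
    (J.comm_pw_aux (T := J.mul (J.pw a 1)) (J.comm_sq a).symm (Commute.refl _) n).1
  exact (J.comm_pw_aux (T := J.mul (J.pw a m)) (h1 m).symm (h2 m).symm n).1

theorem pw_mul (a : A) (m n : ℕ) : J.mul (J.pw a m) (J.pw a n) = J.pw a (m + n + 1) := by
  induction m with
  | zero => rw [Nat.zero_add]; rfl
  | succ m ih =>
    have h := congrArg (fun T : Module.End ℂ A => T (J.pw a m)) (J.comm_pw a n 0).eq
    simp only [Module.End.mul_apply] at h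
    change J.mul (J.mul a (J.pw a m)) (J.pw a n) = _
    rw [J.mul_comm (J.mul a (J.pw a m))]
    change J.mul (J.pw a n) (J.mul (J.pw a 0) (J.pw a m)) = _
    rw [h, J.mul_comm (J.pw a n), ih]
    have e : m + 1 + n + 1 = (m + n + 1) + 1 := by omega
    rw [e]
    rfl

theorem st_pw {a : A} (ha : J.st a = a) (n : ℕ) : J.st (J.pw a n) = J.pw a n := by
  induction n with
  | zero => exact ha
  | succ n ih =>
    change J.st (J.mul a (J.pw a n)) = J.mul a (J.pw a n)
    rw [J.st_mul, ha, ih]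

/-- The involution is bounded. -/
theorem norm_st_le (a : A) : ‖J.st a‖ ≤ 3 * ‖a‖ := by
  have h1 : ∀ b : A, ‖b‖ ≤ 3 * ‖J.st b‖ := by
    intro b
    by_cases hb : b = 0
    · rw [hb, norm_zero]
      positivity
    have hb' : 0 < ‖b‖ := norm_pos_iff.2 hb
    have h2 := J.norm_U b
    have h3 : ‖(2 : ℂ) • J.mul (J.mul b (J.st b)) b - J.mul (J.mul b b) (J.st b)‖ ≤
        3 * ‖J.st b‖ * ‖b‖ ^ 2 := by
      refine (norm_sub_le _ _).trans ?_
      have h4 : ‖(2 : ℂ) • J.mul (J.mul b (J.st b)) b‖ ≤ 2 * (‖b‖ * ‖J.st b‖ * ‖b‖) := by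
        rw [norm_smul]
        simp only [Complex.norm_ofNat]
        refine mul_le_mul_of_nonneg_left ?_ (by norm_num)
        refine (J.norm_mul_le _ _).trans ?_
        exact mul_le_mul_of_nonneg_right (J.norm_mul_le _ _) (norm_nonneg _)
      have h5 : ‖J.mul (J.mul b b) (J.st b)‖ ≤ ‖b‖ * ‖b‖ * ‖J.st b‖ := by
        refine (J.norm_mul_le _ _).trans ?_
        exact mul_le_mul_of_nonneg_right (J.norm_mul_le _ _) (norm_nonneg _)
      nlinarith
    rw [h2] at h3
    have h4 : ‖b‖ ^ 3 = ‖b‖ * ‖b‖ ^ 2 := by ring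
    rw [h4] at h3
    exact le_of_mul_le_mul_right h3 (by positivity)
  have h2 := h1 (J.st a)
  rwa [J.st_st] at h2

end JBStar

end Pool.Agent.R709.JB
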